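import Pool.Agent.helper60.MW.Spec

set_option autoImplicit false

/-! Row mw:HAR (MP_f477b1_co): area of the points with many dense fine squares nearby and no dense coarse square -/

namespace Pool.Agent.MW

open MeasureTheory Set Pool.Agent.helper17.Worm

theorem HAR_measurable (N : ℕ) (x y : ℤ) (W : ℝ) : MeasurableSet (nbh N x y W) := by
  unfold nbh
  exact (measurableSet_Icc.preimage Complex.measurable_re).inter (measurableSet_Icc.preimage Complex.measurable_im)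

theorem HAR_volume (N : ℕ) (x y : ℤ) (W : ℝ) (hW : 0 ≤ W) :
    volume (nbh N x y W) = ENNReal.ofReal ((1 / 2 ^ N + 2 * W) ^ 2) := by
  have h1 : nbh N x y W = Complex.measurableEquivRealProd ⁻¹'
      (Icc ((x : ℝ) / 2 ^ N - W) ((x + 1 : ℝ) / 2 ^ N + W) ×ˢ Icc ((y : ℝ) / 2 ^ N - W) ((y + 1 : ℝ) / 2 ^ N + W)) := by
    ext z
    rfl
  rw [h1, Complex.volume_preserving_equiv_real_prod.measure_preimage
    (measurableSet_Icc.prod measurableSet_Icc).nullMeasurableSet, Measure.volume_eq_prod, Measure.prod_prod,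
    Real.volume_Icc, Real.volume_Icc, ← ENNReal.ofReal_mul]
  · congr 1
    ring
  · have h2 : ((x + 1 : ℝ) / 2 ^ N + W - ((x : ℝ) / 2 ^ N - W)) = 1 / 2 ^ N + 2 * W := by ring
    rw [h2]
    positivity

/-- the parent square contains the child -/
theorem HAR_parent (L r : ℕ) (x y : ℤ) (W : ℝ) (z : ℂ) (h : z ∈ nbh (L + r) x y W) :
    z ∈ nbh L (x / 2 ^ r) (y / 2 ^ r) W := by
  have key : ∀ (x : ℤ) (u : ℝ), (x : ℝ) / 2 ^ (L + r) - W ≤ u → u ≤ (x + 1 : ℝ) / 2 ^ (L + r) + W →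
      ((x / 2 ^ r : ℤ) : ℝ) / 2 ^ L - W ≤ u ∧ u ≤ (((x / 2 ^ r : ℤ) : ℝ) + 1) / 2 ^ L + W := by
    intro x u h1 h2
    have hr : (0 : ℤ) < 2 ^ r := by positivity
    have hr' : (0 : ℝ) < 2 ^ r := by positivity
    have hL : (0 : ℝ) < 2 ^ L := by positivity
    have h3 : (x / 2 ^ r : ℤ) * 2 ^ r ≤ x := Int.ediv_mul_le x hr.ne'
    have h4 : x + 1 ≤ (x / 2 ^ r + 1) * 2 ^ r := by
      have h5 := Int.lt_ediv_add_one_mul_self x hr
      omega
    have h3' : ((x / 2 ^ r : ℤ) : ℝ) * 2 ^ r ≤ x := by exact_mod_cast h3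
    have h4' : (x : ℝ) + 1 ≤ (((x / 2 ^ r : ℤ) : ℝ) + 1) * 2 ^ r := by exact_mod_cast h4
    have e1 : ((x / 2 ^ r : ℤ) : ℝ) / 2 ^ L = ((x / 2 ^ r : ℤ) : ℝ) * 2 ^ r / 2 ^ (L + r) := by
      rw [pow_add]
      field_simp
    have e2 : (((x / 2 ^ r : ℤ) : ℝ) + 1) / 2 ^ L = (((x / 2 ^ r : ℤ) : ℝ) + 1) * 2 ^ r / 2 ^ (L + r) := by
      rw [pow_add]
      field_simp
    have h6 : ((x / 2 ^ r : ℤ) : ℝ) * 2 ^ r / 2 ^ (L + r) ≤ (x : ℝ) / 2 ^ (L + r) :=
      div_le_div_of_nonneg_right h3' (by positivity)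
    have h7 : (x + 1 : ℝ) / 2 ^ (L + r) ≤ (((x / 2 ^ r : ℤ) : ℝ) + 1) * 2 ^ r / 2 ^ (L + r) :=
      div_le_div_of_nonneg_right h4' (by positivity)
    rw [e1, e2]
    constructor <;> linarith
  have hre : z.re ∈ Icc ((x : ℝ) / 2 ^ (L + r) - W) ((x + 1 : ℝ) / 2 ^ (L + r) + W) := h.1
  have him : z.im ∈ Icc ((y : ℝ) / 2 ^ (L + r) - W) ((y + 1 : ℝ) / 2 ^ (L + r) + W) := h.2
  exact ⟨key x z.re hre.1 hre.2, key y z.im him.1 him.2⟩

open Classical in
theorem HAR : HAR_stmt := by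
  intro D hD L r K κ W hκ hκ8 hW hK
  have h4P : (4 : ℝ) ^ (L + r) = (2 ^ (L + r)) ^ 2 := by
    rw [← pow_mul, mul_comm, pow_mul]
    norm_num
  have hP : (0 : ℝ) < 2 ^ (L + r) := by positivity
  set A : ℤ × ℤ → Set ℂ := fun s =>
    if 2 * κ ≤ |D (L + r) s.1 s.2 - D L (s.1 / 2 ^ r) (s.2 / 2 ^ r)| then nbh (L + r) s.1 s.2 W else ∅ with hA
  have hAm : ∀ s, MeasurableSet (A s) := by
    intro s
    rw [hA]
    dsimp only
    split_ifs
    · exact HAR_measurable _ _ _ _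
    · exact MeasurableSet.empty
  set f : ℂ → ENNReal := fun z => ∑' s, (A s).indicator (fun _ => (1 : ENNReal)) z with hf
  have hfm : Measurable f := Measurable.ennreal_tsum fun s => (measurable_const.indicator (hAm s))
  have hsub : HH (D (L + r)) (L + r) κ W K \ UU (D L) L κ W ⊆ {z | (K : ENNReal) ≤ f z} := by
    rintro z ⟨⟨S, hS, hSz⟩, hU⟩
    have h1 : ∀ s ∈ S, (A s).indicator (fun _ => (1 : ENNReal)) z = 1 := by
      intro s hs
      obtain ⟨h2, h3⟩ := hSz s hs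
      have h4 := HAR_parent L r s.1 s.2 W z h3
      have h5 : D L (s.1 / 2 ^ r) (s.2 / 2 ^ r) < 1 - 4 * κ := by
        by_contra hcon
        exact hU ⟨_, _, not_lt.1 hcon, h4⟩
      have h6 : 2 * κ ≤ |D (L + r) s.1 s.2 - D L (s.1 / 2 ^ r) (s.2 / 2 ^ r)| := by
        rw [abs_of_nonneg (by linarith)]
        linarith
      have h7 : z ∈ A s := by
        show z ∈ (if 2 * κ ≤ |D (L + r) s.1 s.2 - D L (s.1 / 2 ^ r) (s.2 / 2 ^ r)| then
          nbh (L + r) s.1 s.2 W else ∅)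
        rw [if_pos h6]
        exact h3
      rw [Set.indicator_of_mem h7]
    show (K : ENNReal) ≤ f z
    calc (K : ENNReal) = ∑ s ∈ S, (A s).indicator (fun _ => (1 : ENNReal)) z := by
          rw [Finset.sum_congr rfl h1, Finset.sum_const, hS, nsmul_eq_mul, mul_one]
      _ ≤ f z := ENNReal.sum_le_tsum S
  have hmarkov : (K : ENNReal) * volume (HH (D (L + r)) (L + r) κ W K \ UU (D L) L κ W) ≤ ∑' s, volume (A s) := by
    calc (K : ENNReal) * volume (HH (D (L + r)) (L + r) κ W K \ UU (D L) L κ W)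
        ≤ (K : ENNReal) * volume {z | (K : ENNReal) ≤ f z} := mul_le_mul_right (measure_mono hsub) _
      _ ≤ ∫⁻ z, f z := mul_meas_ge_le_lintegral hfm _
      _ = ∑' s, ∫⁻ z, (A s).indicator (fun _ => (1 : ENNReal)) z :=
          lintegral_tsum fun s => (measurable_const.indicator (hAm s)).aemeasurable
      _ = ∑' s, volume (A s) := by
          refine tsum_congr fun s => ?_
          rw [lintegral_indicator_const (hAm s), one_mul]
  have hterm : ∀ s : ℤ × ℤ, volume (A s) ≤ ENNReal.ofReal ((1 + 2 * W * 2 ^ (L + r)) ^ 2 / (4 * κ ^ 2)) *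
      ENNReal.ofReal ((D (L + r) s.1 s.2 - D L (s.1 / 2 ^ r) (s.2 / 2 ^ r)) ^ 2 / 4 ^ (L + r)) := by
    intro s
    by_cases h6 : 2 * κ ≤ |D (L + r) s.1 s.2 - D L (s.1 / 2 ^ r) (s.2 / 2 ^ r)|
    · have h7 : A s = nbh (L + r) s.1 s.2 W := by
        rw [hA]
        dsimp only
        rw [if_pos h6]
      rw [h7, HAR_volume _ _ _ _ hW, ← ENNReal.ofReal_mul (by positivity)]
      apply ENNReal.ofReal_le_ofReal
      have h8 : 4 * κ ^ 2 ≤ (D (L + r) s.1 s.2 - D L (s.1 / 2 ^ r) (s.2 / 2 ^ r)) ^ 2 := by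
        rw [← sq_abs (D (L + r) s.1 s.2 - D L (s.1 / 2 ^ r) (s.2 / 2 ^ r))]
        nlinarith
      have h9 : (1 / (2 : ℝ) ^ (L + r) + 2 * W) ^ 2 = (1 + 2 * W * 2 ^ (L + r)) ^ 2 / 4 ^ (L + r) := by
        rw [h4P]
        field_simp
      rw [h9, div_mul_div_comm]
      rw [div_le_div_iff₀ (by positivity) (by positivity)]
      have h10 : 0 ≤ (1 + 2 * W * 2 ^ (L + r)) ^ 2 * (4 : ℝ) ^ (L + r) := by positivity
      nlinarith [mul_le_mul_of_nonneg_left h8 h10]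
    · have h7 : A s = ∅ := by
        rw [hA]
        dsimp only
        rw [if_neg h6]
      rw [h7, measure_empty]
      exact bot_le
  have hfin : (K : ENNReal) * volume (HH (D (L + r)) (L + r) κ W K \ UU (D L) L κ W) ≤
      ENNReal.ofReal ((1 + 2 * W * 2 ^ (L + r)) ^ 2 / (4 * κ ^ 2)) * va D L r := by
    refine hmarkov.trans ?_
    unfold va
    rw [← ENNReal.tsum_mul_left]
    exact ENNReal.tsum_le_tsum hterm
  have hK0 : (K : ENNReal) ≠ 0 := by
    rw [Nat.cast_ne_zero]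
    omega
  have hKt : (K : ENNReal) ≠ ⊤ := ENNReal.natCast_ne_top K
  have hKr : (0 : ℝ) < K := by
    have : 0 < K := by omega
    exact_mod_cast this
  have e1 : ENNReal.ofReal ((1 + 2 * W * 2 ^ (L + r)) ^ 2 / (4 * κ ^ 2 * K)) =
      ENNReal.ofReal ((1 + 2 * W * 2 ^ (L + r)) ^ 2 / (4 * κ ^ 2)) / K := by
    rw [← div_div, ENNReal.ofReal_div_of_pos hKr, ENNReal.ofReal_natCast]
  rw [e1, div_eq_mul_inv, mul_right_comm, ← div_eq_mul_inv, ENNReal.le_div_iff_mul_le (Or.inl hK0) (Or.inl hKt),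
    mul_comm]
  exact hfin

end Pool.Agent.MW
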